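import Pool.Agent.R920.WN.Main

/-!
# Fujita's very ampleness conjecture for étale quotients by small linear groups

`Y` is a smooth subvariety of dimension `n` of a product of projective spaces `P^(N_j)` with
canonical bundle `O(κ_1, …, κ_s)`, and a finite group `G` acts on the product by linear maps of the
factors, preserves `Y` and acts freely on `Y`. The group need not be abelian. Let `X = Y/G`, and let
`A` be a line bundle on `X` whose pullback to `Y` is `O(k_1, …, k_s)`, all `k_j ≥ 1`. The forms of
multidegree `e_j = κ_j + m k_j` on which `G` acts by a given character are sections of `K_X + mA`.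
If `2|G| ≤ κ_j + n + 3` for all `j` and `m ≥ n + 2`, they have no common zero, separate points and
separate tangent vectors.

The sections are averages over `G` of products of linear forms which vanish at all points but one
of one orbit or of two orbits.
-/

set_option autoImplicit false

namespace Pool.Agent.Results.MP_e09b14_ag.LinearQuotients

open MvPolynomial

/-- The homogeneous coordinates on the product of the projective spaces of dimensions `N j`. -/
abbrev Var {s : ℕ} (N : Fin s → ℕ) : Type := Σ j : Fin s, Fin (N j + 1)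

/-- Multihomogeneous polynomials: the degree in the coordinates of the `j`-th factor is `d j`. -/
def Multihomogeneous {s : ℕ} {N : Fin s → ℕ} (d : Fin s → ℕ) (f : MvPolynomial (Var N) ℂ) : Prop :=
  ∀ j, IsWeightedHomogeneous (fun x : Var N => if x.1 = j then 1 else 0) f (d j)

/-- A finite group `G` which acts on the product of projective spaces by linear maps of the
factors, and a set `Y` of points of the product (given by their homogeneous coordinates) on which
it acts freely. -/
structure LinearCover (G : Type) [Group G] {s : ℕ} (N : Fin s → ℕ) where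
  ρ : G →* Matrix (Var N) (Var N) ℂ
  block : ∀ g (x y : Var N), x.1 ≠ y.1 → ρ g x y = 0
  Y : Set (Var N → ℂ)
  point : ∀ v ∈ Y, ∀ j, ∃ i, v ⟨j, i⟩ ≠ 0
  free : ∀ v ∈ Y, ∀ (g : G) (t : Fin s → ℂ), (∀ x, (ρ g).mulVec v x = t x.1 * v x) → g = 1

/-- The forms of multidegree `e` on which `G` acts by the character `χ`: sections of the line
bundle on `X = Y/G` given by `e` and `χ`. -/
def Section {G : Type} [Group G] {s : ℕ} {N : Fin s → ℕ} (D : LinearCover G N) (e : Fin s → ℕ)
    (χ : G →* ℂˣ) (r : MvPolynomial (Var N) ℂ) : Prop :=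
  Multihomogeneous e r ∧
    ∀ (g : G) (x : Var N → ℂ), eval ((D.ρ g).mulVec x) r = χ g * eval x r

theorem result {G : Type} [Group G] [Finite G] {s : ℕ} (N : Fin s → ℕ) (D : LinearCover G N)
    (n : ℕ) (κ : Fin s → ℤ) (hG : ∀ j, 2 * (Nat.card G : ℤ) ≤ κ j + n + 3)
    (k : Fin s → ℕ) (hk : ∀ j, 1 ≤ k j) (m : ℕ) (hm : n + 2 ≤ m) (e : Fin s → ℕ)
    (he : ∀ j, (e j : ℤ) = κ j + m * k j) (χ : G →* ℂˣ) :
    -- no base points
    (∀ v ∈ D.Y, ∃ r, Section D e χ r ∧ eval v r ≠ 0) ∧
    -- points are separated
    (∀ v ∈ D.Y, ∀ w ∈ D.Y,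
      (¬ ∃ (g : G) (t : Fin s → ℂ), ∀ x, (D.ρ g).mulVec v x = t x.1 * w x) →
      ∃ r, Section D e χ r ∧ eval v r = 0 ∧ eval w r ≠ 0) ∧
    -- tangent vectors are separated
    (∀ v ∈ D.Y, ∀ u : Var N → ℂ, (¬ ∃ τ : Fin s → ℂ, ∀ x, u x = τ x.1 * v x) →
      ∃ r, Section D e χ r ∧ eval v r = 0 ∧ ∑ x, eval v (pderiv x r) * u x ≠ 0) := by
  classical
  have _ := Fintype.ofFinite G
  have hrel : ∀ v ∈ D.Y, Pool.Agent.R920.WP.Rel (Sigma.fst : Var N → Fin s) v := by
    intro v hv j
    obtain ⟨i, hi⟩ := D.point v hv j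
    exact ⟨⟨j, i⟩, rfl, hi⟩
  have h2 : ∀ j, 2 * Fintype.card G ≤ e j + 1 := by
    intro j
    have h3 : m ≤ m * k j := Nat.le_mul_of_pos_right m (hk j)
    have h4 := hG j
    have h5 := he j
    rw [Nat.card_eq_fintype_card] at h4
    zify at h3 hm ⊢
    linarith
  have h1 : ∀ j, Fintype.card G ≤ e j + 1 := fun j => by
    have h3 := h2 j
    omega
  refine ⟨fun v hv => Pool.Agent.R920.WN.bpf D.block h1 χ (hrel v hv) (D.free v hv), ?_, ?_⟩
  · intro v hv w hw hne
    exact Pool.Agent.R920.WN.pts D.block h2 χ (hrel w hw) (D.free w hw) hne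
  · intro v hv u hne
    exact Pool.Agent.R920.WN.tan D.block h2 χ (hrel v hv) (D.free v hv) hne

end Pool.Agent.Results.MP_e09b14_ag.LinearQuotients
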