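import Pool.Agent.R920.WP.Main

/-!
# Fujita's very ampleness conjecture for étale quotients of hypersurfaces in products of projective
spaces

`Y` is a hypersurface of multidegree `(d_j)`, `d_j ≥ 1`, in a product of `s ≥ 2` projective spaces
`P^(N_j)`, `N_j ≥ 1`, and a finite group `G ≠ 1` acts freely on `Y` by diagonal matrices. Let
`n = ∑ N_j - 1` be the dimension of `Y`, let `X = Y/G`, and let `A` be a line bundle on `X` whose
pullback to `Y` is `O(k_1, …, k_s)`, all `k_j ≥ 1`. Then the sections of `K_X + mA` are the forms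
of multidegree `e_j = d_j - (N_j + 1) + m k_j` on which `G` acts by a given character. For
`m ≥ n + 2` they have no common zero, separate points and separate tangent vectors.
-/

set_option autoImplicit false

namespace Pool.Agent.Results.MP_e09b14_ag.ProductQuotients

open MvPolynomial

/-- The homogeneous coordinates on the product of the projective spaces of dimensions `N j`. -/
abbrev Var {s : ℕ} (N : Fin s → ℕ) : Type := Σ j : Fin s, Fin (N j + 1)

/-- Multihomogeneous polynomials: the degree in the coordinates of the `j`-th factor is `d j`. -/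
def Multihomogeneous {s : ℕ} {N : Fin s → ℕ} (d : Fin s → ℕ) (f : MvPolynomial (Var N) ℂ) : Prop :=
  ∀ j, IsWeightedHomogeneous (fun x : Var N => if x.1 = j then 1 else 0) f (d j)

/-- Homogeneous coordinates of a point of the product: in each factor one of them is nonzero. -/
def IsPoint {s : ℕ} {N : Fin s → ℕ} (v : Var N → ℂ) : Prop := ∀ j, ∃ i, v ⟨j, i⟩ ≠ 0

/-- A multihomogeneous polynomial `f` of multidegree `d`, all `d j ≥ 1`, and an action of `G` by
diagonal matrices, the coordinate `x` being multiplied by the character `α x`. The group maps `f`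
to multiples of `f`, and `G` acts without fixed points on the zeros of `f` in the product of
projective spaces. -/
structure ProductCover (G : Type) [Group G] {s : ℕ} (N : Fin s → ℕ) where
  d : Fin s → ℕ
  dpos : ∀ j, 0 < d j
  f : MvPolynomial (Var N) ℂ
  homogeneous : Multihomogeneous d f
  α : Var N → G →* ℂˣ
  stable : ∀ g : G, ∃ c : ℂ, ∀ x : Var N → ℂ,
    eval (fun i => (α i g : ℂ) * x i) f = c * eval x f
  free : ∀ v : Var N → ℂ, IsPoint v → eval v f = 0 → ∀ (g : G) (t : Fin s → ℂ),
    (∀ x, (α x g : ℂ) * v x = t x.1 * v x) → g = 1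

/-- The forms of multidegree `e` on which `G` acts by the character `χ`: the sections of the line
bundle on `X = Y/G` given by `e` and `χ`. -/
def Section {G : Type} [Group G] {s : ℕ} {N : Fin s → ℕ} (D : ProductCover G N) (e : Fin s → ℕ)
    (χ : G →* ℂˣ) (r : MvPolynomial (Var N) ℂ) : Prop :=
  Multihomogeneous e r ∧
    ∀ (g : G) (x : Var N → ℂ), eval (fun i => (D.α i g : ℂ) * x i) r = χ g * eval x r

theorem result {G : Type} [Group G] [Finite G] [Nontrivial G] {s : ℕ} (hs : 2 ≤ s)
    (N : Fin s → ℕ) (hN : ∀ j, 1 ≤ N j) (n : ℕ) (hn : n + 1 = ∑ j, N j) (D : ProductCover G N)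
    (k : Fin s → ℕ) (hk : ∀ j, 1 ≤ k j) (m : ℕ) (hm : n + 2 ≤ m) (e : Fin s → ℕ)
    (he : ∀ j, e j + (N j + 1) = D.d j + m * k j) (χ : G →* ℂˣ) :
    -- no base points
    (∀ v : Var N → ℂ, IsPoint v → eval v D.f = 0 → ∃ r, Section D e χ r ∧ eval v r ≠ 0) ∧
    -- points are separated
    (∀ v w : Var N → ℂ, IsPoint v → IsPoint w → eval v D.f = 0 → eval w D.f = 0 →
      (¬ ∃ (t : Fin s → ℂ) (g : G), ∀ x, w x = t x.1 * ((D.α x g : ℂ) * v x)) →
      ∃ r, Section D e χ r ∧ eval v r = 0 ∧ eval w r ≠ 0) ∧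
    -- tangent vectors are separated
    (∀ v u : Var N → ℂ, IsPoint v → eval v D.f = 0 → ∑ x, eval v (pderiv x D.f) * u x = 0 →
      (¬ ∃ τ : Fin s → ℂ, ∀ x, u x = τ x.1 * v x) →
      ∃ r, Section D e χ r ∧ eval v r = 0 ∧ ∑ x, eval v (pderiv x r) * u x ≠ 0) := by
  classical
  have hS' : Pool.Agent.R920.WP.Setup (Sigma.fst : Var N → Fin s) D.α D.d D.f := by
    refine ⟨D.dpos, D.homogeneous, D.stable, ?_, inferInstance⟩
    intro v hv hfv g t h
    refine D.free v (fun j => ?_) hfv g t h
    obtain ⟨⟨j', i⟩, rfl, hx⟩ := hv j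
    exact ⟨i, hx⟩
  have hb : Function.Surjective (Sigma.fst : Var N → Fin s) := fun j => ⟨⟨j, 0⟩, rfl⟩
  have hS : ∀ i : Fin s, ∃ k, k ≠ i := by
    intro i
    have : Nontrivial (Fin s) := Fin.nontrivial_iff_two_le.2 hs
    exact exists_ne i
  have hrel : ∀ v : Var N → ℂ, IsPoint v → Pool.Agent.R920.WP.Rel Sigma.fst v := by
    intro v hv j
    obtain ⟨i, hi⟩ := hv j
    exact ⟨⟨j, i⟩, rfl, hi⟩
  have hcard : ∀ j, Nat.card G ≤ D.d j := by
    intro j
    have h1 : (⟨j, 0⟩ : Var N) ≠ ⟨j, Fin.last (N j)⟩ := by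
      intro h
      have h2 := congrArg Fin.val (eq_of_heq (Sigma.mk.inj h).2)
      simp only [Fin.val_zero, Fin.val_last] at h2
      have h3 := hN j
      omega
    exact Nat.le_of_dvd (D.dpos j) (hS'.dvd hb h1 rfl)
  have hlow : ∀ j, D.d j + 1 ≤ e j := by
    intro j
    obtain ⟨i, hi⟩ := hS j
    have h1 : N j + N i ≤ ∑ l, N l := by
      have h2 := Finset.add_sum_erase Finset.univ N (Finset.mem_univ j)
      have h3 : N i ≤ ∑ l ∈ Finset.univ.erase j, N l :=
        Finset.single_le_sum (fun _ _ => Nat.zero_le _)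
          (Finset.mem_erase.2 ⟨hi, Finset.mem_univ _⟩)
      omega
    have h4 : m ≤ m * k j := Nat.le_mul_of_pos_right m (hk j)
    have h5 := he j
    have h6 := hN i
    omega
  have he1 : ∀ j, Nat.card G + 1 ≤ e j := fun j => by
    have h1 := hcard j
    have h2 := hlow j
    omega
  have he0 : ∀ j, Nat.card G ≤ e j := fun j => by
    have h1 := he1 j
    omega
  have hde : ∀ j, D.d j ≤ e j := fun j => by
    have h1 := hlow j
    omega
  refine ⟨fun v hv hfv => hS'.bpf hb hS he0 χ (hrel v hv) hfv, ?_, ?_⟩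
  · intro v w hv hw hfv hfw hne
    by_contra hcon
    push Not at hcon
    exact hne (hS'.pts hb hS he1 hde χ (hrel v hv) (hrel w hw) hfv hfw fun r hr => hcon r hr)
  · intro v u hv hfv hfu hne
    by_contra hcon
    push Not at hcon
    exact hne (hS'.tan hb hS he1 hde χ (hrel v hv) hfv hfu fun r hr => hcon r hr)

end Pool.Agent.Results.MP_e09b14_ag.ProductQuotients
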