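import Pool.Agent.R920.WQ.Tan
import Pool.Agent.H39R2.FujTan
import Pool.Agent.Results.MP_e09b14_ag.SmallDiagonalQuotients

/-!
# Fujita's very ampleness conjecture for étale quotients of weighted hypersurfaces

`Y = V(f)` is a hypersurface of degree `d` and dimension `n ≥ 1` in the weighted projective space
`P(a_0, …, a_(n+1))`, and a finite group `G` acts on `Y` by diagonal matrices. The group `ℂˣ × G`
is assumed to act freely on the cone over `Y` without its vertex, that is, `O(1)` is invertible on
`Y` and `G` acts freely on `Y`. Let `X = Y/G`, and let `A` be a line bundle on `X` whose pullback to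
`Y` is `O(k)`, `k ≥ 1`. Then the sections of `K_X + mA` are the forms of weighted degree
`e = d - ∑ a_i + mk` on the cone on which `G` acts by a given character. For `m ≥ n + 2` they have
no common zero, separate points and separate tangent vectors.
-/

set_option autoImplicit false

namespace Pool.Agent.Results.MP_e09b14_ag.WeightedQuotients

open MvPolynomial

/-- A weighted homogeneous polynomial `f` of weighted degree `d`, the variable `x_i` having weight
`a i`, and an action of `G` by diagonal matrices, the `i`-th coordinate being multiplied by the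
character `α i`. The group maps `f` to multiples of `f`, and `ℂˣ × G` acts without stabilizers on
the nonzero zeros of `f`. -/
structure WeightedCover (G : Type) [Group G] (n : ℕ) where
  a : Fin (n + 2) → ℕ
  pos : ∀ i, 0 < a i
  d : ℕ
  dpos : 0 < d
  f : MvPolynomial (Fin (n + 2)) ℂ
  homogeneous : IsWeightedHomogeneous a f d
  α : Fin (n + 2) → G →* ℂˣ
  stable : ∀ g : G, ∃ c : ℂ, ∀ x : Fin (n + 2) → ℂ,
    eval (fun i => (α i g : ℂ) * x i) f = c * eval x f
  free : ∀ v : Fin (n + 2) → ℂ, v ≠ 0 → eval v f = 0 → ∀ (g : G) (t : ℂ),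
    (∀ i, (α i g : ℂ) * v i = t ^ a i * v i) → g = 1 ∧ t = 1

/-- The forms of weighted degree `e` on which `G` acts by the character `χ`: the sections of the
line bundle on `X = Y/G` given by `e` and `χ`. -/
def Section {G : Type} [Group G] {n : ℕ} (D : WeightedCover G n) (e : ℕ) (χ : G →* ℂˣ)
    (s : MvPolynomial (Fin (n + 2)) ℂ) : Prop :=
  IsWeightedHomogeneous D.a s e ∧
    ∀ (g : G) (x : Fin (n + 2) → ℂ), eval (fun i => (D.α i g : ℂ) * x i) s = χ g * eval x s

theorem result {G : Type} [Group G] [Finite G] (n : ℕ) (hn : 1 ≤ n) (D : WeightedCover G n)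
    (k m e : ℕ) (hk : 1 ≤ k) (hm : n + 2 ≤ m) (he : e + ∑ i, D.a i = D.d + m * k)
    (χ : G →* ℂˣ) :
    -- no base points
    (∀ v : Fin (n + 2) → ℂ, v ≠ 0 → eval v D.f = 0 → ∃ s, Section D e χ s ∧ eval v s ≠ 0) ∧
    -- points are separated
    (∀ v w : Fin (n + 2) → ℂ, v ≠ 0 → w ≠ 0 → eval v D.f = 0 → eval w D.f = 0 →
      (¬ ∃ (t : ℂ) (g : G), ∀ i, w i = t ^ D.a i * ((D.α i g : ℂ) * v i)) →
      ∃ s, Section D e χ s ∧ eval v s = 0 ∧ eval w s ≠ 0) ∧
    -- tangent vectors are separated
    (∀ v u : Fin (n + 2) → ℂ, v ≠ 0 → eval v D.f = 0 → ∑ i, eval v (pderiv i D.f) * u i = 0 →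
      (¬ ∃ τ : ℂ, ∀ i, u i = τ * (D.a i * v i)) →
      ∃ s, Section D e χ s ∧ eval v s = 0 ∧ ∑ i, eval v (pderiv i s) * u i ≠ 0) := by
  classical
  have hmk : n + 2 ≤ m * k := hm.trans (Nat.le_mul_of_pos_right m hk)
  have hE : D.d ≤ e + ∑ l, (D.a l - 1) := by
    have h1 : ∑ l, D.a l = ∑ l, (D.a l - 1) + (n + 2) := by
      have h2 : ∀ l : Fin (n + 2), D.a l = (D.a l - 1) + 1 := fun l => by
        have := D.pos l
        omega
      calc ∑ l, D.a l = ∑ l, ((D.a l - 1) + 1) := Finset.sum_congr rfl (fun l _ => h2 l)
        _ = ∑ l, (D.a l - 1) + (n + 2) := by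
            rw [Finset.sum_add_distrib]; simp
    omega
  rcases subsingleton_or_nontrivial G with hG | hG
  · -- the group is trivial
    have hgcd : ∀ v : Fin (n + 2) → ℂ, v ≠ 0 → eval v D.f = 0 →
        ∀ q : ℕ, (∀ i, v i ≠ 0 → q ∣ D.a i) → q = 1 := by
      intro v hv hfv q hq
      obtain ⟨i, hi⟩ : ∃ i, v i ≠ 0 := by
        by_contra hcon
        push Not at hcon
        exact hv (funext hcon)
      have hq0 : q ≠ 0 := by
        rintro rfl
        have h1 := hq i hi
        have h2 := D.pos i
        rw [zero_dvd_iff] at h1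
        omega
      have hp := Complex.isPrimitiveRoot_exp q hq0
      have h1 := (D.free v hv hfv 1 _ (fun j => by
        rw [map_one, Units.val_one, one_mul]
        by_cases hj : v j = 0
        · rw [hj, mul_zero]
        · rw [(hp.pow_eq_one_iff_dvd _).2 (hq j hj), one_mul])).2
      rw [h1] at hp
      exact (hp.unique IsPrimitiveRoot.one)
    have S : Pool.Agent.H39R2.Fuj.Setup D.a D.d e D.f :=
      ⟨D.pos, D.dpos, by omega, D.homogeneous, hgcd, hE⟩
    have hsec : ∀ s, IsWeightedHomogeneous D.a s e → Section D e χ s := by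
      intro s hs
      refine ⟨hs, fun g x => ?_⟩
      have hg : g = 1 := Subsingleton.elim _ _
      subst hg
      simp
    refine ⟨fun v hv hfv => ?_, ?_, ?_⟩
    · obtain ⟨s, hs, hsv⟩ := S.bpf v hv hfv
      exact ⟨s, hsec s hs, hsv⟩
    · intro v w hv hw hfv hfw hne
      by_contra hcon
      push Not at hcon
      obtain ⟨t, _, ht⟩ := S.pts v w hv hw hfv hfw fun s hs => hcon s (hsec s hs)
      exact hne ⟨t, 1, fun i => by rw [ht i]; simp⟩
    · intro v u hv hfv hfu hne
      by_contra hcon
      push Not at hcon
      exact hne (S.tan v u hv hfv hfu fun s hs => hcon s (hsec s hs))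
  · by_cases hM : ∃ l, 2 ≤ D.a l
    · -- some weight is greater than one
      have S : Pool.Agent.R920.WQ.Setup D.a D.α D.d D.f :=
        ⟨D.pos, D.dpos, D.homogeneous, D.stable, D.free, hG⟩
      refine ⟨fun v hv hfv => S.bpf hE χ hv hfv, ?_, ?_⟩
      · intro v w hv hw hfv hfw hne
        by_contra hcon
        push Not at hcon
        obtain ⟨t, g, h⟩ := S.pts hM hE χ hv hw hfv hfw fun s hs => hcon s hs
        exact hne ⟨t, g, h⟩
      · intro v u hv hfv hfu hne
        by_contra hcon
        push Not at hcon
        exact hne (S.tan hM hE χ hv hfv hfu fun s hs => hcon s hs)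
    · -- all weights are one
      push Not at hM
      have ha : ∀ i, D.a i = 1 := fun i => by
        have h1 := hM i
        have h2 := D.pos i
        omega
      have ha' : D.a = 1 := funext ha
      have hhom : ∀ (s : MvPolynomial (Fin (n + 2)) ℂ) (q : ℕ),
          s.IsHomogeneous q ↔ IsWeightedHomogeneous D.a s q := by
        intro s q
        rw [ha']
        rfl
      have hf : D.f.IsHomogeneous D.d := (hhom _ _).2 D.homogeneous
      have hmemI : ∀ v : Fin (n + 2) → ℂ, (∀ p ∈ Ideal.span {D.f}, eval v p = 0) ↔
          eval v D.f = 0 := by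
        intro v
        constructor
        · intro h
          exact h _ (Ideal.mem_span_singleton_self _)
        · intro h p hp
          obtain ⟨q, rfl⟩ := Ideal.mem_span_singleton.1 hp
          rw [map_mul, h, zero_mul]
      have hbind : ∀ (g : G), ∃ c : ℂ,
          bind₁ (fun i => C ((D.α i g : ℂˣ) : ℂ) * X i) D.f = C c * D.f := by
        intro g
        obtain ⟨c, hc⟩ := D.stable g
        refine ⟨c, ?_⟩
        apply MvPolynomial.funext
        intro x
        have h2 : ((aeval x : MvPolynomial (Fin (n + 2)) ℂ →ₐ[ℂ] ℂ).comp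
            (bind₁ (fun i => C ((D.α i g : ℂˣ) : ℂ) * X i))) =
            aeval (fun i => ((D.α i g : ℂˣ) : ℂ) * x i) := by
          apply MvPolynomial.algHom_ext
          intro j
          simp
        have h3 := congrArg (fun φ => φ D.f) (congrArg DFunLike.coe h2)
        simp only [AlgHom.comp_apply, coe_aeval_eq_eval] at h3
        rw [map_mul, eval_C, ← hc x]
        exact h3
      let E : Pool.Agent.Results.MP_e09b14_ag.SmallDiagonalQuotients.DiagonalCover G (n + 1) :=
        { I := Ideal.span {D.f}
          homogeneous := Pool.Agent.TH144.MB.hom_span (by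
            intro p hp
            rw [Set.mem_singleton_iff.1 hp]
            exact ⟨D.d, hf⟩)
          α := D.α
          stable := by
            intro g p hp
            obtain ⟨q, rfl⟩ := Ideal.mem_span_singleton.1 hp
            obtain ⟨c, hc⟩ := hbind g
            rw [map_mul, hc]
            exact Ideal.mul_mem_right _ _ (Ideal.mul_mem_left _ _
              (Ideal.mem_span_singleton_self _))
          free := by
            intro v hv hfv g μ h
            exact (D.free v hv ((hmemI v).1 hfv) g μ (fun i => by
              rw [ha i, pow_one]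
              exact h i)).1 }
      have hCI : Pool.Agent.Results.MP_e09b14_ag.SmallDiagonalQuotients.CompleteIntersection
          E.I n ((D.d : ℤ) - (n + 2)) := by
        refine ⟨1, fun _ => D.f, fun _ => D.d, fun _ => ⟨hf, D.dpos⟩, ?_, rfl, ?_⟩
        · rw [Set.range_const]
        · simp only [Fin.sum_univ_one]
          push_cast
          ring
      have hsum : ∑ i, D.a i = n + 2 := by simp [ha]
      obtain ⟨r1, r2, r3⟩ :=
        Pool.Agent.Results.MP_e09b14_ag.SmallDiagonalQuotients.result E n ((D.d : ℤ) - (n + 2))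
          (Or.inl hCI) k m e hk hm (by
            rw [hsum] at he
            have : (e : ℤ) + (n + 2) = D.d + m * k := by exact_mod_cast he
            linarith) (Or.inr ⟨hCI, hn, rfl⟩) χ
      have hsec : ∀ s, Pool.Agent.Results.MP_e09b14_ag.SmallDiagonalQuotients.Section E e χ s →
          Section D e χ s := by
        intro s hs
        exact ⟨(hhom _ _).1 hs.1, hs.2⟩
      refine ⟨?_, ?_, ?_⟩
      · intro v hv hfv
        obtain ⟨s, hs, h⟩ := r1 v hv ((hmemI v).2 hfv)
        exact ⟨s, hsec s hs, h⟩
      · intro v w hv hw hfv hfw hne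
        obtain ⟨s, hs, h⟩ := r2 v w hv hw ((hmemI v).2 hfv) ((hmemI w).2 hfw) (by
          rintro ⟨g, c, h⟩
          exact hne ⟨c, g, fun i => by rw [ha i, pow_one]; exact h i⟩)
        exact ⟨s, hsec s hs, h⟩
      · intro v u hv hfv hfu hne
        obtain ⟨s, hs, h⟩ := r3 v u hv ((hmemI v).2 hfv) (by
          intro p hp
          obtain ⟨q, rfl⟩ := Ideal.mem_span_singleton.1 hp
          have h1 : ∀ i, eval v (pderiv i (D.f * q)) * u i =
              eval v q * (eval v (pderiv i D.f) * u i) := by
            intro i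
            rw [Derivation.leibniz, smul_eq_mul, smul_eq_mul, map_add, map_mul, map_mul, hfv]
            ring
          rw [Finset.sum_congr rfl (fun i _ => h1 i), ← Finset.mul_sum, hfu, mul_zero]) (by
          rintro ⟨c, h⟩
          exact hne ⟨c, fun i => by rw [ha i, Nat.cast_one, one_mul]; exact h i⟩)
        exact ⟨s, hsec s hs, h⟩

end Pool.Agent.Results.MP_e09b14_ag.WeightedQuotients
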